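import Mathlib

set_option autoImplicit false

namespace Pool.Agent.Results.MP_43be50_gt.Strict

open Set Filter Topology TopologicalSpace

section
variable (Y Z : Type) [TopologicalSpace Y] [TopologicalSpace Z]

/-- The family `O_Z(Y)`. -/
def OZ : Set (Set Y) := {W | ∃ (f : C(Y, Z)) (U : Set Z), IsOpen U ∧ W = f ⁻¹' U}

/-- The topology on `C(Y, Z)` with subbasis the sets `(K, U)`, `K` in a given family. -/
def setOpen (P : Set (Set Y)) : TopologicalSpace C(Y, Z) :=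
  generateFrom {B | ∃ K ∈ P, ∃ U : Set Z, IsOpen U ∧ B = {f : C(Y, Z) | f '' K ⊆ U}}

/-- The topology on `C(Y, Z)` with subbasis the sets `(H, U)`, `H` in a given family. -/
def famOpen (P : Set (Set (Set Y))) : TopologicalSpace C(Y, Z) :=
  generateFrom {B | ∃ H ∈ P, ∃ U : Set Z, IsOpen U ∧ B = {f : C(Y, Z) | f ⁻¹' U ∈ H}}

/-- Upward closed families of open sets, from members lying in `O`. -/
def Up (O : Set (Set Y)) (H : Set (Set Y)) : Prop :=
  (∀ W ∈ H, IsOpen W) ∧ ∀ W ∈ H, W ∈ O → ∀ V, IsOpen V → W ⊆ V → V ∈ H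

/-- Scott type condition for subfamilies of `O`. -/
def Scott (O : Set (Set Y)) : Set (Set (Set Y)) :=
  {H | Up Y O H ∧ ∀ S ⊆ O, ⋃₀ S ∈ H → ∃ T ⊆ S, T.Finite ∧ ⋃₀ T ∈ H}

/-- Strong Scott type condition for subfamilies of `O`. -/
def SScott (O : Set (Set Y)) : Set (Set (Set Y)) :=
  {H | Up Y O H ∧ ∀ S ⊆ O, ⋃₀ S = univ → ∃ T ⊆ S, T.Finite ∧ ⋃₀ T ∈ H}

def tco := setOpen Y Z {K | IsCompact K}
def tcoZ := setOpen Y Z {K | @IsCompact Y (generateFrom (OZ Y Z)) K}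
def tIs := famOpen Y Z (Scott Y {W | IsOpen W})
def tsIs := famOpen Y Z (SScott Y {W | IsOpen W})
def t1Z := famOpen Y Z (Scott Y (OZ Y Z))
def t1sZ := famOpen Y Z (SScott Y (OZ Y Z))

end

inductive Y
  | n (k : ℕ)
  | star
  | x (A : {A : Set ℕ // A ∉ hyperfilter ℕ})

instance : TopologicalSpace Y where
  IsOpen U := ∀ A, Y.x A ∈ U → Y.star ∈ U ∧ ∀ᶠ k in atTop, k ∈ A.1 → Y.n k ∈ U
  isOpen_univ := by simp
  isOpen_inter := fun _ _ hs ht A h => ⟨⟨(hs A h.1).1, (ht A h.2).1⟩,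
    ((hs A h.1).2.and (ht A h.2).2).mono fun _ hk e => ⟨hk.1 e, hk.2 e⟩⟩
  isOpen_sUnion := fun _ hS A ⟨W, hW, h⟩ => ⟨⟨W, hW, (hS W hW A h).1⟩,
    (hS W hW A h).2.mono fun _ hk e => ⟨W, hW, hk e⟩⟩

lemma cof {W : Set Y} (hW : IsClopen W) (h : Y.star ∈ W) : Wᶜ.Finite := by
  have h1 : ∀ A, Y.x A ∈ W := fun A => by_contra fun hh => (hW.compl.isOpen A hh).1 h
  have h2 : {k | Y.n k ∉ W}.Finite := by
    by_contra hi
    obtain ⟨φ, hφ, hk⟩ := extraction_of_frequently_atTop (Nat.frequently_atTop_iff_infinite.2 hi)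
    have key : ∀ ψ : ℕ → ℕ, StrictMono ψ → range (φ ∘ ψ) ∈ hyperfilter ℕ := fun ψ hψ => by
      by_contra hh
      obtain ⟨k, hk'⟩ := ((hφ.comp hψ).tendsto_atTop.eventually (hW.isOpen ⟨_, hh⟩ (h1 _)).2).exists
      exact hk _ (hk' ⟨k, rfl⟩)
    obtain ⟨_, ⟨i, rfl⟩, j, hj⟩ := Ultrafilter.nonempty_of_mem (inter_mem
      (key (fun k => 2 * k) fun a b h => by simpa) (key (fun k => 2 * k + 1) fun a b h => by simpa))
    have : 2 * j + 1 = 2 * i := hφ.injective hj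
    omega
  refine (h2.image Y.n).subset fun y hy => ?_
  cases y with
  | n k => exact ⟨k, hy, rfl⟩
  | star => exact absurd h hy
  | x A => exact absurd (h1 A) hy

lemma oz {W : Set Y} (h : W ∈ OZ Y Bool) : IsClopen W := by
  obtain ⟨f, U, -, rfl⟩ := h
  exact (isClopen_discrete U).preimage f.continuous

lemma fin_sub {S : Set (Set Y)} (h : ⋃₀ S = univ) {W : Set Y} (hW : W ∈ S) (hf : Wᶜ.Finite) :
    ∃ T ⊆ S, T.Finite ∧ ⋃₀ T = univ := by
  choose V h1 h2 using fun y => eq_univ_iff_forall.1 h y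
  refine ⟨insert W (V '' Wᶜ), ?_, (hf.image _).insert _, eq_univ_of_forall fun y => ?_⟩
  · rintro _ (rfl | ⟨y, -, rfl⟩)
    exacts [hW, h1 y]
  · by_cases hy : y ∈ W
    exacts [⟨W, Or.inl rfl, hy⟩, ⟨V y, Or.inr ⟨y, hy, rfl⟩, h2 y⟩]

lemma cpt {S : Set (Set Y)} (hS : S ⊆ OZ Y Bool) (h : ⋃₀ S = univ) :
    ∃ T ⊆ S, T.Finite ∧ ⋃₀ T = univ := by
  obtain ⟨W, hW, h0⟩ := eq_univ_iff_forall.1 h Y.star
  exact fin_sub h hW (cof (oz (hS hW)) h0)

lemma zcpt : @IsCompact Y (generateFrom (OZ Y Bool)) univ := by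
  letI := generateFrom (OZ Y Bool)
  refine isCompact_iff_ultrafilter_le_nhds.2 fun u _ => ?_
  rcases u.le_cofinite_or_eq_pure with h | ⟨a, rfl⟩
  · refine ⟨Y.star, trivial, h.trans ?_⟩
    rw [nhds_generateFrom]
    exact le_iInf₂ fun W hW => le_principal_iff.2 (cof (oz hW.2) hW.1)
  · exact ⟨a, trivial, pure_le_nhds a⟩

def zero : C(Y, Bool) := ⟨fun _ => false, continuous_const⟩

open Classical in
noncomputable def chi (k : ℕ) : C(Y, Bool) := ⟨fun y => decide (y = Y.n k), by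
  have : IsClopen {Y.n k} := ⟨⟨fun A _ => ⟨by simp, (eventually_ne_atTop k).mono fun j hj _ => by
    simpa using hj⟩⟩, by intro A; simp⟩
  exact ((continuous_boolIndicator_iff_isClopen _).2 this).congr fun y => by simp [boolIndicator]⟩

def small : Set (Set Y) := {W | IsOpen W ∧ Y.n ⁻¹' W ∉ hyperfilter ℕ}

lemma small_cov : ⋃₀ small = univ := eq_univ_of_forall fun y => by
  cases y with
  | n k => exact ⟨{Y.n k}, ⟨by intro A; simp, ((finite_singleton k).subset (by simp)).notMem_hyperfilter⟩, rfl⟩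
  | star => exact ⟨{Y.star}, ⟨by intro A; simp, (finite_empty.subset (by intro k; simp)).notMem_hyperfilter⟩, rfl⟩
  | x A =>
    refine ⟨{Y.x A, Y.star} ∪ Y.n '' A.1, ⟨fun B hB => ⟨by simp, Eventually.of_forall fun k hk => ?_⟩, ?_⟩, by simp⟩
    · have : B = A := by simpa using hB
      exact Or.inr ⟨k, this ▸ hk, rfl⟩
    · convert A.2
      ext k; simp

lemma small_fin {T : Set (Set Y)} (h : T ⊆ small) (hT : T.Finite) :
    ∀ᶠ k in hyperfilter ℕ, Y.n k ∉ ⋃₀ T := by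
  have := (eventually_all_finite (l := (hyperfilter ℕ : Filter ℕ)) (p := fun W k => Y.n k ∉ W) hT).2 fun W hW =>
    Ultrafilter.compl_mem_iff_notMem.2 (h hW).2
  exact this.mono fun k hk ⟨W, hW, h⟩ => hk W hW h

lemma fam {P : Set (Set (Set Y))} (hP : ∀ H ∈ P, Up Y {W | IsOpen W} H ∧
    (univ ∈ H → ∃ T ⊆ small, T.Finite ∧ ⋃₀ T ∈ H)) :
    Tendsto chi (hyperfilter ℕ) (@nhds _ (famOpen Y Bool P) zero) := by
  rw [famOpen, tendsto_nhds_generateFrom_iff]
  rintro _ ⟨H, hH, U, -, rfl⟩ h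
  have ho : ∀ k, IsOpen (chi k ⁻¹' U) := fun k => (isOpen_discrete U).preimage (chi k).continuous
  by_cases hU : false ∈ U
  · obtain ⟨T, h1, h2, h3⟩ := (hP H hH).2 (by
      have e : zero ⁻¹' U = univ := by ext y; simp [zero, hU]
      exact e ▸ h)
    filter_upwards [small_fin h1 h2] with k hk
    refine (hP H hH).1.2 _ h3 ((hP H hH).1.1 _ h3) _ (ho k) fun y hy => ?_
    have : y ≠ Y.n k := fun e => hk (e ▸ hy)
    simpa [chi, this] using hU
  · exact Eventually.of_forall fun k => (hP H hH).1.2 _ h ((hP H hH).1.1 _ h) _ (ho k)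
      fun y hy => absurd hy hU

lemma ne_of {t t' : TopologicalSpace C(Y, Bool)} (h : IsOpen[t] {f | ∀ y, f y = false})
    (h' : Tendsto chi (hyperfilter ℕ) (@nhds _ t' zero)) : t ≠ t' := by
  rintro rfl
  obtain ⟨k, hk⟩ := (h'.eventually (h.mem_nhds fun _ => rfl)).exists
  simpa [chi] using hk (Y.n k)

lemma up_univ (O : Set (Set Y)) : Up Y O {univ} :=
  ⟨by simp, by rintro _ rfl - V - h; exact univ_subset_iff.1 h⟩

lemma e0 : {f : C(Y, Bool) | ∀ y, f y = false} = {f : C(Y, Bool) | f ⁻¹' {false} ∈ ({univ} : Set (Set Y))} := by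
  ext f; simp [eq_univ_iff_forall]

theorem result : ∃ (Y Z : Type) (_ : TopologicalSpace Y) (_ : TopologicalSpace Z),
    tcoZ Y Z ≠ tco Y Z ∧ t1Z Y Z ≠ tIs Y Z ∧ t1sZ Y Z ≠ tsIs Y Z := by
  refine ⟨Y, Bool, inferInstance, inferInstance, ne_of (isOpen_generateFrom_of_mem
    ⟨univ, zcpt, {false}, isOpen_discrete _, by ext f; simp [subset_def]⟩) ?_,
    ne_of (isOpen_generateFrom_of_mem ⟨{univ}, ⟨up_univ _, fun S hS h => cpt hS h⟩, {false},
      isOpen_discrete _, e0⟩) (fam fun H hH => ⟨hH.1, fun h => hH.2 _ (fun W hW => hW.1)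
      (small_cov ▸ h)⟩),
    ne_of (isOpen_generateFrom_of_mem ⟨{univ}, ⟨up_univ _, fun S hS h => cpt hS h⟩, {false},
      isOpen_discrete _, e0⟩) (fam fun H hH => ⟨hH.1, fun _ => hH.2 _ (fun W hW => hW.1) small_cov⟩)⟩
  rw [tco, setOpen, tendsto_nhds_generateFrom_iff]
  rintro _ ⟨K, hK, U, -, rfl⟩ h
  obtain ⟨T, h1, h2, h3⟩ := IsCompact.elim_finite_subcover_image hK (b := small) (c := id)
    (fun W hW => hW.1) (by simp only [id]; rw [← sUnion_eq_biUnion, small_cov]; exact subset_univ _)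
  filter_upwards [small_fin h1 h2] with k hk
  rintro _ ⟨y, hy, rfl⟩
  have : y ≠ Y.n k := fun e => hk (by rw [sUnion_eq_biUnion]; exact e ▸ h3 hy)
  simpa [chi, this, zero] using h ⟨y, hy, rfl⟩

end Pool.Agent.Results.MP_43be50_gt.Strict
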